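import Pool.Agent.FUR.Stmts

/-!
# DLT (squad FUR): no decision list of tests of small sensitivity computes parity
-/

set_option autoImplicit false

open Finset

namespace Pool.Agent.FUR.H17

variable {N : ℕ}

theorem ov_fl_mem (K : Finset (Fin N)) (ρ x : Fin N → Bool) (v : Fin N) (hv : v ∈ K) :
    ov K ρ (fl x v) = fl (ov K ρ x) v := by
  funext w
  unfold ov fl
  by_cases hw : w = v
  · subst hw
    simp [hv]
  · simp [Function.update_of_ne hw]

theorem ov_fl_notMem (K : Finset (Fin N)) (ρ x : Fin N → Bool) (v : Fin N) (hv : v ∉ K) :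
    ov K ρ (fl x v) = ov K ρ x := by
  funext w
  unfold ov fl
  by_cases hw : w = v
  · subst hw
    simp [hv]
  · simp [Function.update_of_ne hw]

theorem sn_ov (f : BF N) (K : Finset (Fin N)) (ρ x : Fin N → Bool) :
    Sn (fun y => f (ov K ρ y)) x ⊆ Sn f (ov K ρ x) ∩ K := by
  intro v hv
  rw [Sn, mem_filter] at hv
  have hv2 := hv.2
  have hK : v ∈ K := by
    by_contra hK
    apply hv2
    show f (ov K ρ (fl x v)) = f (ov K ρ x)
    rw [ov_fl_notMem K ρ x v hK]
  rw [mem_inter, Sn, mem_filter]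
  refine ⟨⟨mem_univ _, ?_⟩, hK⟩
  intro h
  apply hv2
  show f (ov K ρ (fl x v)) = f (ov K ρ x)
  rw [ov_fl_mem K ρ x v hK]
  exact h

open Classical in
theorem ess_card (sim : SIMStmt) (f : BF N) (K : Finset (Fin N)) (ρ : Fin N → Bool) (r : ℕ)
    (h : ∀ x, (Sn f (ov K ρ x) ∩ K).card ≤ r) :
    (univ.filter fun v => Ess (fun y => f (ov K ρ y)) v).card ≤ r * 4 ^ r := by
  apply sim N r
  intro x
  exact le_trans (card_le_card (sn_ov f K ρ x)) (h x)

theorem not_ess {f : BF N} {v : Fin N} (h : ¬ Ess f v) (x : Fin N → Bool) :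
    f (fl x v) = f x := by
  by_contra hx
  exact h ⟨x, hx⟩

/-- **DLT** -/
theorem dlt (sim : SIMStmt) (par0 : PARStmt) : DLTStmt := by
  classical
  intro N k r M T0 T1 B K ρ hK hk h0 h1 hB hall
  set tst : Fin M → (Fin N → Bool) → Bool := fun j x => if B j x then T1 j x else T0 j x
    with htst
  have hne : ({j : Fin M | ∃ x, tst j (ov K ρ x) = false} : Set (Fin M)).Nonempty := by
    obtain ⟨j, hj, -⟩ := hall (ov K ρ ρ)
    exact ⟨j, ρ, hj⟩
  obtain ⟨j, ⟨x0, hx0⟩, hmin⟩ := (wellFounded_lt (α := Fin M)).has_min _ hne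
  have hval : ∀ x, tst j (ov K ρ x) = false → B j (ov K ρ x) = par (ov K ρ x) := by
    intro x hx
    obtain ⟨j1, ha, hb, hc⟩ := hall (ov K ρ x)
    have hj1 : j1 = j := by
      rcases lt_trichotomy j1 j with hlt | heq | hgt
      · exact absurd hlt (hmin j1 ⟨x, ha⟩)
      · exact heq
      · have := hb j hgt
        have hx2 : (if B j (ov K ρ x) then T1 j (ov K ρ x) else T0 j (ov K ρ x)) = false := hx
        rw [hx2] at this
        exact absurd this (by decide)
    rw [hj1] at hc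
    exact hc
  set E0 := univ.filter fun v => Ess (fun y => T0 j (ov K ρ y)) v with hE0
  set E1 := univ.filter fun v => Ess (fun y => T1 j (ov K ρ y)) v with hE1
  set EB := univ.filter fun v => Ess (fun y => B j (ov K ρ y)) v with hEB
  have c0 : E0.card ≤ r * 4 ^ r := ess_card sim (T0 j) K ρ r (h0 j)
  have c1 : E1.card ≤ r * 4 ^ r := ess_card sim (T1 j) K ρ r (h1 j)
  have cB : EB.card ≤ r * 4 ^ r := ess_card sim (B j) K ρ r (hB j)
  have hc : (E0 ∪ E1 ∪ EB).card < K.card := by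
    have a1 := card_union_le (E0 ∪ E1) EB
    have a2 := card_union_le E0 E1
    omega
  obtain ⟨v, hvK, hvE⟩ := exists_mem_notMem_of_card_lt_card hc
  rw [mem_union, mem_union, not_or, not_or] at hvE
  obtain ⟨⟨n0, n1⟩, nB⟩ := hvE
  have n0' : ¬ Ess (fun y => T0 j (ov K ρ y)) v := fun h => n0 (by rw [hE0, mem_filter]; exact ⟨mem_univ _, h⟩)
  have n1' : ¬ Ess (fun y => T1 j (ov K ρ y)) v := fun h => n1 (by rw [hE1, mem_filter]; exact ⟨mem_univ _, h⟩)
  have nB' : ¬ Ess (fun y => B j (ov K ρ y)) v := fun h => nB (by rw [hEB, mem_filter]; exact ⟨mem_univ _, h⟩)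
  have e0 : T0 j (ov K ρ (fl x0 v)) = T0 j (ov K ρ x0) := not_ess n0' x0
  have e1 : T1 j (ov K ρ (fl x0 v)) = T1 j (ov K ρ x0) := not_ess n1' x0
  have eB : B j (ov K ρ (fl x0 v)) = B j (ov K ρ x0) := not_ess nB' x0
  have hx1 : tst j (ov K ρ (fl x0 v)) = false := by
    rw [← hx0]
    simp only [htst]
    rw [e0, e1, eB]
  have v0 := hval x0 hx0
  have v1 := hval (fl x0 v) hx1
  rw [eB, v0, ov_fl_mem K ρ x0 v hvK, par0 N (ov K ρ x0) v] at v1
  revert v1
  cases par (ov K ρ x0) <;> decide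

end Pool.Agent.FUR.H17
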